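import Mathlib

/-!
# Feedback vertex sets of planar oriented graphs: a counterexample for digirth 5

We disprove the bound `fvs(G) ≤ (2n+m)/(3g)` for planar oriented graphs of digirth `g ≥ 4`:
there is a planar oriented graph with `n = 12` vertices, `m = 19` arcs, digirth exactly `5` and
feedback vertex number `3 > 43/15`.
-/

namespace Pool.Agent.Results.MP_fa4488_co.PentagonCounterexample

/-- An oriented graph: a digraph with no loops and no digons. -/
def IsOriented {V : Type*} (G : Digraph V) : Prop := ∀ u v, G.Adj u v → ¬ G.Adj v u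

/-- A directed cycle of length `k ≥ 1` in `G`: `k` distinct vertices `c 0, …, c (k-1)`, cyclically
indexed, with an arc from each one to the next one. -/
def IsDirectedCycle {V : Type*} (G : Digraph V) (k : ℕ) (c : ZMod k → V) : Prop :=
  1 ≤ k ∧ Function.Injective c ∧ ∀ i, G.Adj (c i) (c (i + 1))

/-- `G` has digirth exactly `g`: the shortest directed cycle of `G` has length `g`. -/
def HasDigirth {V : Type*} (G : Digraph V) (g : ℕ) : Prop :=
  IsLeast {k | ∃ c : ZMod k → V, IsDirectedCycle G k c} g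

/-- `S` is a feedback vertex set: every directed cycle of `G` meets `S`, that is `G - S` has no
directed cycle. -/
def IsFVS {V : Type*} (G : Digraph V) (S : Finset V) : Prop :=
  ∀ (k : ℕ) (c : ZMod k → V), IsDirectedCycle G k c → ∃ i, c i ∈ S

/-- The minimum size of a feedback vertex set. -/
noncomputable def fvs {V : Type*} (G : Digraph V) : ℕ :=
  sInf {s | ∃ S : Finset V, IsFVS G S ∧ S.card = s}

/-- The number of arcs. -/
noncomputable def numArcs {V : Type*} (G : Digraph V) : ℕ :=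
  Nat.card {p : V × V // G.Adj p.1 p.2}

/-- A simple graph is planar if it can be drawn in the plane `ℝ²`: the vertices are distinct points,
every edge `uv` is drawn as a simple curve joining the points of `u` and `v`, no curve passes
through a vertex point in its interior, and the interiors of two different curves are disjoint. -/
def IsPlanar {V : Type*} (G : SimpleGraph V) : Prop :=
  ∃ (pt : V → ℝ × ℝ) (γ : Sym2 V → unitInterval → ℝ × ℝ),
    Function.Injective pt ∧
    (∀ u v : V, G.Adj u v → Continuous (γ s(u, v)) ∧ Function.Injective (γ s(u, v)) ∧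
      ({γ s(u, v) 0, γ s(u, v) 1} : Set (ℝ × ℝ)) = {pt u, pt v}) ∧
    (∀ e ∈ G.edgeSet, ∀ t : unitInterval, 0 < t → t < 1 → ∀ w : V, γ e t ≠ pt w) ∧
    (∀ e ∈ G.edgeSet, ∀ e' ∈ G.edgeSet, e ≠ e' → ∀ s t : unitInterval,
      0 < s → s < 1 → 0 < t → t < 1 → γ e s ≠ γ e' t)

/-! ## The counterexample -/

/-- out-neighbours -/
def out : Fin 12 → List (Fin 12)
  | 0 => [1]
  | 1 => [2]
  | 2 => [3, 9]
  | 3 => [4]
  | 4 => [8, 0]
  | 5 => [6]
  | 6 => [7]
  | 7 => [8, 9]
  | 8 => [0, 11]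
  | 9 => [10, 8]
  | 10 => [3, 5]
  | 11 => [10, 5]

/-- the oriented graph -/
def D : Digraph (Fin 12) := ⟨fun u v => v ∈ out u⟩

instance : DecidableRel D.Adj := fun u v => inferInstanceAs (Decidable (v ∈ out u))

theorem D_oriented : IsOriented D := by
  unfold IsOriented
  decide

theorem D_numArcs : numArcs D = 19 := by
  unfold numArcs
  rw [Nat.card_eq_fintype_card]
  decide

theorem D_no1 : ∀ a : Fin 12, a ∉ out a := by decide
theorem D_no2 : ∀ a : Fin 12, ∀ b ∈ out a, a ∉ out b := by decide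
theorem D_no3 : ∀ a : Fin 12, ∀ b ∈ out a, ∀ c ∈ out b, a ∉ out c := by decide
theorem D_no4 : ∀ a : Fin 12, ∀ b ∈ out a, ∀ c ∈ out b, ∀ d ∈ out c, a ∉ out d := by decide

theorem cyc_of (k : ℕ) (c : Fin (k + 1) → Fin 12)
    (h : Function.Injective c ∧ ∀ i, D.Adj (c i) (c (i + 1))) :
    IsDirectedCycle D (k + 1) (c : ZMod (k + 1) → Fin 12) :=
  ⟨by omega, h.1, h.2⟩

theorem D_digirth : HasDigirth D 5 := by
  constructor
  · exact ⟨(![0, 1, 2, 3, 4] : Fin 5 → Fin 12), cyc_of 4 _ (by decide)⟩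
  · rintro k ⟨c, hk, hinj, hadj⟩
    by_contra hlt
    push Not at hlt
    interval_cases k
    · have h0 := hadj 0
      exact D_no1 _ h0
    · have h0 := hadj 0
      have h1 := hadj 1
      exact D_no2 _ _ h0 h1
    · have h0 := hadj 0
      have h1 := hadj 1
      have h2 := hadj 2
      exact D_no3 _ _ h0 _ h1 h2
    · have h0 := hadj 0
      have h1 := hadj 1
      have h2 := hadj 2
      have h3 := hadj 3
      exact D_no4 _ _ h0 _ h1 _ h2 h3

theorem D_fvs : 3 ≤ fvs D := by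
  have hne : {s | ∃ S : Finset (Fin 12), IsFVS D S ∧ S.card = s}.Nonempty :=
    ⟨_, Finset.univ, fun k c _ => ⟨0, Finset.mem_univ _⟩, rfl⟩
  obtain ⟨S, hS, hcard⟩ := Nat.sInf_mem hne
  unfold fvs
  rw [← hcard]
  by_contra hlt
  push Not at hlt
  -- the five cycles
  have hA := hS 5 _ (cyc_of 4 (![0, 1, 2, 3, 4] : Fin 5 → Fin 12) (by decide))
  have hB := hS 5 _ (cyc_of 4 (![0, 1, 2, 9, 8] : Fin 5 → Fin 12) (by decide))
  have hC := hS 5 _ (cyc_of 4 (![3, 4, 8, 11, 10] : Fin 5 → Fin 12) (by decide))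
  have hD := hS 5 _ (cyc_of 4 (![5, 6, 7, 8, 11] : Fin 5 → Fin 12) (by decide))
  have hE := hS 5 _ (cyc_of 4 (![5, 6, 7, 9, 10] : Fin 5 → Fin 12) (by decide))
  have key : ∀ x y : Fin 12,
      ¬ ((∃ i : Fin 5, (![0, 1, 2, 3, 4] : Fin 5 → Fin 12) i = x ∨
            (![0, 1, 2, 3, 4] : Fin 5 → Fin 12) i = y) ∧
        (∃ i : Fin 5, (![0, 1, 2, 9, 8] : Fin 5 → Fin 12) i = x ∨
            (![0, 1, 2, 9, 8] : Fin 5 → Fin 12) i = y) ∧
        (∃ i : Fin 5, (![3, 4, 8, 11, 10] : Fin 5 → Fin 12) i = x ∨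
            (![3, 4, 8, 11, 10] : Fin 5 → Fin 12) i = y) ∧
        (∃ i : Fin 5, (![5, 6, 7, 8, 11] : Fin 5 → Fin 12) i = x ∨
            (![5, 6, 7, 8, 11] : Fin 5 → Fin 12) i = y) ∧
        (∃ i : Fin 5, (![5, 6, 7, 9, 10] : Fin 5 → Fin 12) i = x ∨
            (![5, 6, 7, 9, 10] : Fin 5 → Fin 12) i = y)) := by
    decide
  obtain ⟨x, y, hxy⟩ : ∃ x y : Fin 12, ∀ z ∈ S, z = x ∨ z = y := by
    have : S.card ≤ 2 := by omega
    rcases Nat.lt_or_ge S.card 1 with h | h
    · have : S = ∅ := by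
        rw [← Finset.card_eq_zero]; omega
      exact ⟨0, 0, by simp [this]⟩
    · rcases Nat.lt_or_ge S.card 2 with h' | h'
      · obtain ⟨x, rfl⟩ := Finset.card_eq_one.mp (by omega : S.card = 1)
        exact ⟨x, x, by simp⟩
      · obtain ⟨x, y, _, rfl⟩ := Finset.card_eq_two.mp (by omega : S.card = 2)
        exact ⟨x, y, by simp⟩
  obtain ⟨i1, h1⟩ := hA
  obtain ⟨i2, h2⟩ := hB
  obtain ⟨i3, h3⟩ := hC
  obtain ⟨i4, h4⟩ := hD
  obtain ⟨i5, h5⟩ := hE
  exact key x y ⟨⟨i1, hxy _ h1⟩, ⟨i2, hxy _ h2⟩, ⟨i3, hxy _ h3⟩, ⟨i4, hxy _ h4⟩, ⟨i5, hxy _ h5⟩⟩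

/-! ## Planarity: a straight-line drawing with integer coordinates -/

/-- integer coordinates of the vertices -/
def P : Fin 12 → ℤ × ℤ
  | 0 => (1, 3)
  | 1 => (2, 8)
  | 2 => (3, 3)
  | 3 => (2, 9)
  | 4 => (0, 4)
  | 5 => (5, 2)
  | 6 => (5, 4)
  | 7 => (4, 3)
  | 8 => (2, 0)
  | 9 => (4, 5)
  | 10 => (9, 6)
  | 11 => (8, 2)

/-- orientation of a triple of points -/
def orient (A B C : ℤ × ℤ) : ℤ := (B.1 - A.1) * (C.2 - A.2) - (B.2 - A.2) * (C.1 - A.1)

/-- the line `AB` separates strictly: `C`, `D` weakly on one side, not both on the line -/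
def Side (A B C E : ℤ × ℤ) : Prop :=
  (0 ≤ orient A B C ∧ 0 ≤ orient A B E ∧ 0 < orient A B C + orient A B E) ∨
  (orient A B C ≤ 0 ∧ orient A B E ≤ 0 ∧ orient A B C + orient A B E < 0)

instance (A B C E : ℤ × ℤ) : Decidable (Side A B C E) := by unfold Side; infer_instance

/-- real point -/
noncomputable def toR (A : ℤ × ℤ) : ℝ × ℝ := ((A.1 : ℝ), (A.2 : ℝ))

/-- point of the segment -/
noncomputable def seg (A B : ℤ × ℤ) (t : ℝ) : ℝ × ℝ :=
  ((1 - t) * (A.1 : ℝ) + t * (B.1 : ℝ), (1 - t) * (A.2 : ℝ) + t * (B.2 : ℝ))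

theorem seg_ne_of_side (A B C E : ℤ × ℤ) (h : Side A B C E) (s t : ℝ)
    (ht0 : 0 < t) (ht1 : t < 1) : seg A B s ≠ seg C E t := by
  intro heq
  have h1 : (1 - s) * (A.1 : ℝ) + s * (B.1 : ℝ) = (1 - t) * (C.1 : ℝ) + t * (E.1 : ℝ) :=
    congrArg Prod.fst heq
  have h2 : (1 - s) * (A.2 : ℝ) + s * (B.2 : ℝ) = (1 - t) * (C.2 : ℝ) + t * (E.2 : ℝ) :=
    congrArg Prod.snd heq
  have key : (1 - t) * (orient A B C : ℝ) + t * (orient A B E : ℝ) = 0 := by
    unfold orient
    push_cast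
    linear_combination (-(B.1 - A.1 : ℝ)) * h2 + (B.2 - A.2 : ℝ) * h1
  rcases h with ⟨ha, hb, hc⟩ | ⟨ha, hb, hc⟩
  · have ha' : (0 : ℝ) ≤ orient A B C := by exact_mod_cast ha
    have hb' : (0 : ℝ) ≤ orient A B E := by exact_mod_cast hb
    have hc' : (0 : ℝ) < orient A B C + orient A B E := by exact_mod_cast hc
    have e1 : 0 ≤ (1 - t) * (orient A B C : ℝ) := mul_nonneg (by linarith) ha'
    have e2 : 0 ≤ t * (orient A B E : ℝ) := mul_nonneg ht0.le hb'
    have e3 : (1 - t) * (orient A B C : ℝ) = 0 := by linarith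
    have e4 : t * (orient A B E : ℝ) = 0 := by linarith
    have e5 : (orient A B C : ℝ) = 0 := by
      rcases mul_eq_zero.mp e3 with h | h
      · linarith
      · exact h
    have e6 : (orient A B E : ℝ) = 0 := by
      rcases mul_eq_zero.mp e4 with h | h
      · linarith
      · exact h
    linarith
  · have ha' : (orient A B C : ℝ) ≤ 0 := by exact_mod_cast ha
    have hb' : (orient A B E : ℝ) ≤ 0 := by exact_mod_cast hb
    have hc' : (orient A B C : ℝ) + orient A B E < 0 := by exact_mod_cast hc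
    have e1 : (1 - t) * (orient A B C : ℝ) ≤ 0 :=
      mul_nonpos_of_nonneg_of_nonpos (by linarith) ha'
    have e2 : t * (orient A B E : ℝ) ≤ 0 := mul_nonpos_of_nonneg_of_nonpos ht0.le hb'
    have e3 : (1 - t) * (orient A B C : ℝ) = 0 := by linarith
    have e4 : t * (orient A B E : ℝ) = 0 := by linarith
    have e5 : (orient A B C : ℝ) = 0 := by
      rcases mul_eq_zero.mp e3 with h | h
      · linarith
      · exact h
    have e6 : (orient A B E : ℝ) = 0 := by
      rcases mul_eq_zero.mp e4 with h | h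
      · linarith
      · exact h
    linarith

theorem seg_ne_point (A B W : ℤ × ℤ) (h : orient A B W ≠ 0) (s : ℝ) : seg A B s ≠ toR W := by
  intro heq
  have h1 : (1 - s) * (A.1 : ℝ) + s * (B.1 : ℝ) = (W.1 : ℝ) := congrArg Prod.fst heq
  have h2 : (1 - s) * (A.2 : ℝ) + s * (B.2 : ℝ) = (W.2 : ℝ) := congrArg Prod.snd heq
  apply h
  have : (orient A B W : ℝ) = 0 := by
    unfold orient
    push_cast
    linear_combination (-(B.1 - A.1 : ℝ)) * h2 + (B.2 - A.2 : ℝ) * h1
  exact_mod_cast this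

theorem seg_inj (A B : ℤ × ℤ) (h : A ≠ B) (s t : ℝ) (heq : seg A B s = seg A B t) : s = t := by
  have h1 : (1 - s) * (A.1 : ℝ) + s * (B.1 : ℝ) = (1 - t) * (A.1 : ℝ) + t * (B.1 : ℝ) :=
    congrArg Prod.fst heq
  have h2 : (1 - s) * (A.2 : ℝ) + s * (B.2 : ℝ) = (1 - t) * (A.2 : ℝ) + t * (B.2 : ℝ) :=
    congrArg Prod.snd heq
  by_contra hne
  apply h
  have hst : s - t ≠ 0 := sub_ne_zero.mpr hne
  have e1 : (A.1 : ℝ) = B.1 := by
    have : (s - t) * ((B.1 : ℝ) - A.1) = 0 := by linear_combination h1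
    rcases mul_eq_zero.mp this with h | h
    · exact absurd h hst
    · linarith
  have e2 : (A.2 : ℝ) = B.2 := by
    have : (s - t) * ((B.2 : ℝ) - A.2) = 0 := by linear_combination h2
    rcases mul_eq_zero.mp this with h | h
    · exact absurd h hst
    · linarith
  exact Prod.ext (by exact_mod_cast e1) (by exact_mod_cast e2)

/-- the underlying edges, smaller endpoint first -/
def edges : List (Fin 12 × Fin 12) :=
  [(0, 1), (1, 2), (2, 3), (2, 9), (3, 4), (4, 8), (0, 4), (5, 6), (6, 7), (7, 8), (7, 9), (0, 8),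
   (8, 11), (9, 10), (8, 9), (3, 10), (5, 10), (10, 11), (5, 11)]

theorem adj_edges : ∀ a b : Fin 12, a < b → (D.Adj a b ∨ D.Adj b a) → (a, b) ∈ edges := by decide

theorem edges_lt : ∀ p ∈ edges, p.1 < p.2 := by decide +kernel

theorem P_inj : ∀ a b : Fin 12, P a = P b → a = b := by decide +kernel

theorem check_sep : ∀ p ∈ edges, ∀ q ∈ edges, p = q ∨
    Side (P p.1) (P p.2) (P q.1) (P q.2) ∨ Side (P q.1) (P q.2) (P p.1) (P p.2) := by
  decide +kernel

theorem check_pt : ∀ p ∈ edges, ∀ w : Fin 12, orient (P p.1) (P p.2) (P w) ≠ 0 ∨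
    w = p.1 ∨ w = p.2 := by
  decide +kernel

theorem mem_edges {a b : Fin 12} (h : D.toSimpleGraphInclusive.Adj a b) (hab : a < b) :
    (a, b) ∈ edges := adj_edges a b hab h.2

theorem edgeSet_cases (e : Sym2 (Fin 12)) (he : e ∈ D.toSimpleGraphInclusive.edgeSet) :
    ∃ p ∈ edges, e = s(p.1, p.2) ∧ e.inf = p.1 ∧ e.sup = p.2 := by
  induction e using Sym2.ind with
  | _ a b =>
    have hadj : D.toSimpleGraphInclusive.Adj a b := he
    rcases lt_trichotomy a b with h | h | h
    · refine ⟨(a, b), mem_edges hadj h, rfl, ?_, ?_⟩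
      · simp [h.le]
      · simp [h.le]
    · exact absurd h hadj.1
    · refine ⟨(b, a), mem_edges hadj.symm h, Sym2.eq_swap, ?_, ?_⟩
      · simp [h.le]
      · simp [h.le]

theorem D_planar : IsPlanar D.toSimpleGraphInclusive := by
  refine ⟨fun v => toR (P v), fun e t => seg (P e.inf) (P e.sup) (t : ℝ), ?_, ?_, ?_, ?_⟩
  · intro a b hab
    apply P_inj
    have h1 : ((P a).1 : ℝ) = (P b).1 := congrArg Prod.fst hab
    have h2 : ((P a).2 : ℝ) = (P b).2 := congrArg Prod.snd hab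
    exact Prod.ext (by exact_mod_cast h1) (by exact_mod_cast h2)
  · intro u v huv
    obtain ⟨p, hp, he, hinf, hsup⟩ := edgeSet_cases s(u, v) huv
    have hne : P p.1 ≠ P p.2 := fun h => absurd (P_inj _ _ h) (edges_lt p hp).ne
    refine ⟨?_, ?_, ?_⟩
    · unfold seg
      fun_prop
    · intro s t hst
      simp only [hinf, hsup] at hst
      exact Subtype.ext (seg_inj _ _ hne _ _ hst)
    · simp only [hinf, hsup]
      have e0 : seg (P p.1) (P p.2) ((0 : unitInterval) : ℝ) = toR (P p.1) := by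
        simp [seg, toR]
      have e1 : seg (P p.1) (P p.2) ((1 : unitInterval) : ℝ) = toR (P p.2) := by
        simp [seg, toR]
      rw [e0, e1]
      rcases Sym2.eq_iff.mp he with ⟨h1, h2⟩ | ⟨h1, h2⟩
      · rw [h1, h2]
      · rw [h1, h2, Set.pair_comm]
  · intro e he t ht0 ht1 w hw
    obtain ⟨p, hp, -, hinf, hsup⟩ := edgeSet_cases e he
    have hne : P p.1 ≠ P p.2 := fun h => absurd (P_inj _ _ h) (edges_lt p hp).ne
    simp only [hinf, hsup] at hw
    rcases check_pt p hp w with h | h | h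
    · exact seg_ne_point _ _ _ h _ hw
    · subst h
      have e0 : seg (P p.1) (P p.2) (0 : ℝ) = toR (P p.1) := by simp [seg, toR]
      rw [← e0] at hw
      have := seg_inj _ _ hne _ _ hw
      exact absurd (Subtype.ext this : t = 0) ht0.ne'
    · subst h
      have e1 : seg (P p.1) (P p.2) (1 : ℝ) = toR (P p.2) := by simp [seg, toR]
      rw [← e1] at hw
      have := seg_inj _ _ hne _ _ hw
      exact absurd (Subtype.ext this : t = 1) ht1.ne
  · intro e he e' he' hee s t hs0 hs1 ht0 ht1 hst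
    obtain ⟨p, hp, hpe, hinf, hsup⟩ := edgeSet_cases e he
    obtain ⟨q, hq, hqe, hinf', hsup'⟩ := edgeSet_cases e' he'
    simp only [hinf, hsup, hinf', hsup'] at hst
    rcases check_sep p hp q hq with h | h | h
    · subst h
      exact hee (hpe.trans hqe.symm)
    · exact seg_ne_of_side _ _ _ _ h _ _ (by exact_mod_cast ht0) (by exact_mod_cast ht1) hst
    · exact seg_ne_of_side _ _ _ _ h _ _ (by exact_mod_cast hs0) (by exact_mod_cast hs1) hst.symm

/-- **Disproof of Q1.** The bound `fvs(G) ≤ (2n+m)/(3g)` does not hold for all `g ≥ 4` and all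
planar oriented graphs `G` of digirth exactly `g`. -/
theorem result : ¬ ∀ g : ℕ, 4 ≤ g → ∀ (V : Type) [Fintype V] (G : Digraph V),
    IsOriented G → IsPlanar G.toSimpleGraphInclusive → HasDigirth G g →
      (fvs G : ℚ) ≤ (2 * (Fintype.card V : ℚ) + (numArcs G : ℚ)) / (3 * (g : ℚ)) := by
  intro h
  have h5 := h 5 (by norm_num) (Fin 12) D D_oriented D_planar D_digirth
  have h3 : (3 : ℚ) ≤ (fvs D : ℚ) := by exact_mod_cast D_fvs
  rw [D_numArcs] at h5
  norm_num at h5
  linarith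

end Pool.Agent.Results.MP_fa4488_co.PentagonCounterexample
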